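import Pool.Agent.H46.MM.HullMin
import Pool.Agent.H46.MM.HullPos

/-!
# Minimizers of the modulus metric that contain a path are Jordan arcs
-/

set_option autoImplicit false

namespace Pool.Agent.Results.MP_3078dd_an.PathMinimizers

open MeasureTheory Set

/-- Euclidean space of dimension `n = m + 1`. -/
abbrev Rn (m : ℕ) := EuclideanSpace ℝ (Fin (m + 1))

/-- `∫ |∇ u| ^ n`, `n = m + 1`. -/
noncomputable def energy {m : ℕ} (u : Rn m → ℝ) : ℝ := ∫ x, ‖gradient u x‖ ^ (m + 1)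

/-- `u` is smooth with compact support in `D`, and `u ≥ 1` on `K`. -/
def Admissible {m : ℕ} (D K : Set (Rn m)) (u : Rn m → ℝ) : Prop :=
  ContDiff ℝ (⊤ : ℕ∞) u ∧ HasCompactSupport u ∧ tsupport u ⊆ D ∧ ∀ x ∈ K, 1 ≤ u x

/-- The conformal capacity `cap(D, K)`. -/
noncomputable def cap {m : ℕ} (D K : Set (Rn m)) : ℝ := sInf {e | ∃ u, Admissible D K u ∧ e = energy u}

/-- The boundary of `D` has positive capacity: a compact set `K` in it has positive capacity in a bounded open set `B`. -/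
def PositiveBoundary {m : ℕ} (D : Set (Rn m)) : Prop :=
  ∃ K B : Set (Rn m), IsCompact K ∧ K ⊆ frontier D ∧ IsOpen B ∧ Bornology.IsBounded B ∧ K ⊆ B ∧ 0 < cap B K

/-- `C` is compact and connected, contained in `D`, and contains `x` and `y`. For `x ≠ y` these are the
continua in `K_xy`. -/
def Joins {m : ℕ} (D : Set (Rn m)) (x y : Rn m) (C : Set (Rn m)) : Prop :=
  IsCompact C ∧ IsConnected C ∧ C ⊆ D ∧ x ∈ C ∧ y ∈ C

/-- The modulus metric `μ_D(x, y)` for `x ≠ y`. -/
noncomputable def modulusMetric {m : ℕ} (D : Set (Rn m)) (x y : Rn m) : ℝ :=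
  sInf {c | ∃ C, Joins D x y C ∧ c = cap D C}

/-- `C` is a `μ_D`-minimizer with endpoints `x, y`. -/
def IsMinimizer {m : ℕ} (D : Set (Rn m)) (x y : Rn m) (C : Set (Rn m)) : Prop :=
  Joins D x y C ∧ cap D C = modulusMetric D x y

/-- The points `w` such that for some `r > 0` the part of the closed ball of radius `r` about `w` outside `D` has
capacity zero: `D` and its removable boundary points. -/
def hull {m : ℕ} (D : Set (Rn m)) : Set (Rn m) :=
  {w | ∃ r : ℝ, 0 < r ∧ cap (Metric.ball w (2 * r)) (Metric.closedBall w r \ D) = 0}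

theorem adm_iff {m : ℕ} (D K : Set (Rn m)) (u : Rn m → ℝ) :
    Pool.Agent.H46.MM.Adm D K u ↔ Admissible D K u :=
  ⟨fun h => ⟨h.1, h.2, h.3, h.4⟩, fun h => ⟨h.1, h.2.1, h.2.2.1, h.2.2.2⟩⟩

theorem cont_iff {m : ℕ} (D : Set (Rn m)) (x y : Rn m) (C : Set (Rn m)) :
    Pool.Agent.H46.MM.Cont D x y C ↔ Joins D x y C :=
  ⟨fun h => ⟨h.1, h.2, h.3, h.4, h.5⟩, fun h => ⟨h.1, h.2.1, h.2.2.1, h.2.2.2.1, h.2.2.2.2⟩⟩

theorem cap_eq {m : ℕ} (D K : Set (Rn m)) : Pool.Agent.H46.MM.cap D K = cap D K := by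
  unfold Pool.Agent.H46.MM.cap cap
  simp only [adm_iff]
  rfl

theorem min_iff {m : ℕ} (D : Set (Rn m)) (x y : Rn m) (C : Set (Rn m)) :
    IsMinimizer D x y C → Pool.Agent.H46.MM.IsMin D x y C := by
  intro h
  refine ⟨(cont_iff D x y C).2 h.1, ?_⟩
  rw [cap_eq, h.2]
  unfold Pool.Agent.H46.MM.modMetric modulusMetric
  simp only [cont_iff, cap_eq]

/-- Let `n = m + 1 ≥ 2`, `D` an open set in `ℝ^n` whose boundary has positive capacity, `x ≠ y` and `C` a `μ_D`-minimizer
with endpoints `x, y`. (1) If `C' ⊆ C` is a continuum with `x, y ∈ C'`, then every point of `C` outside `C'` lies in a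
component of the complement of `C'` that is contained in `hull D`. (2) If `x` and `y` can be joined by a path in `C`, then `C`
is a Jordan arc with endpoints `x, y`, it has no interior points, and it is irreducible between `x` and `y`. -/
theorem result (m : ℕ) (hm : 1 ≤ m) (D : Set (Rn m)) (hD : IsOpen D) (hpos : PositiveBoundary D)
    (x y : Rn m) (hxy : x ≠ y) (C : Set (Rn m)) (hC : IsMinimizer D x y C) :
    (∀ C' : Set (Rn m), Joins D x y C' → C' ⊆ C → ∀ z ∈ C, z ∉ C' →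
      connectedComponentIn C'ᶜ z ⊆ hull D) ∧
    (JoinedIn C x y →
      (∃ η : ℝ → Rn m, ContinuousOn η (Icc 0 1) ∧ InjOn η (Icc 0 1) ∧ η 0 = x ∧ η 1 = y ∧
        η '' Icc 0 1 = C) ∧
      interior C = ∅ ∧ ∀ C' : Set (Rn m), Joins D x y C' → C' ⊆ C → C' = C) := by
  have hmin := min_iff D x y C hC
  refine ⟨fun C' h' hsub z hz hz' w hw => ?_, fun hj => ?_⟩
  · obtain ⟨r, hr, h0⟩ := Pool.Agent.H46.MM.irr_loc hm D hD x y hxy C hmin C'
      ((cont_iff D x y C').2 h') hsub z hz hz' w hw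
    rw [cap_eq] at h0
    exact ⟨r, hr, h0⟩
  · obtain ⟨K, B, hK, hKD, hB, -, hKB, hc⟩ := hpos
    rw [← cap_eq] at hc
    have hdis : Disjoint K D := by
      rw [Set.disjoint_left]
      intro z hz hzD
      have h1 := hKD hz
      rw [hD.frontier_eq] at h1
      exact h1.2 hzD
    have hDu := Pool.Agent.H46.MM.hull_pos D hD K B hK hdis hB hKB hc
    obtain ⟨h1, h2, h3⟩ := Pool.Agent.H46.MM.jordan_hull hm D hD hDu x y hxy C hmin hj
    exact ⟨h1, h2, fun C' h' hsub => h3 C' ((cont_iff D x y C').2 h') hsub⟩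

end Pool.Agent.Results.MP_3078dd_an.PathMinimizers
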